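import Pool.Agent.Run7.h630.ML.Iface

/-!
# Consistency of the second difference for Schwartz functions (piece TAY)
-/

open MeasureTheory Filter Topology Set
open scoped SchwartzMap ContDiff Nat

namespace Pool.Agent.Run7.h885.ML

open _root_.Run7.h630.ML

noncomputable section

theorem nat_le_infty (k : ℕ) : ((k : ℕ) : WithTop ℕ∞) ≤ ∞ := by exact_mod_cast le_top

/-- the fourth derivative along a line -/
theorem line_four (u : 𝓢(E2, ℂ)) (i : Fin 2) (x : E2) (t : ℝ) :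
    ‖iteratedDeriv 4 (fun s : ℝ => u (x + s • ev i)) t‖ ≤
      ‖iteratedFDeriv ℝ 4 u (x + t • ev i)‖ := by
  have hn : ‖(ContinuousLinearMap.toSpanSingleton ℝ (ev i) : ℝ →L[ℝ] E2)‖ = 1 := by
    rw [ContinuousLinearMap.norm_toSpanSingleton]
    simp [ev]
  have h1 : (fun s : ℝ => u (x + s • ev i)) =
      (fun z : E2 => u (x + z)) ∘ (ContinuousLinearMap.toSpanSingleton ℝ (ev i)) := by
    funext s
    simp
  have h2 : ContDiff ℝ ∞ (fun z : E2 => u (x + z)) :=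
    u.smooth'.comp (contDiff_const.add contDiff_id)
  rw [← norm_iteratedFDeriv_eq_norm_iteratedDeriv, h1,
    ContinuousLinearMap.iteratedFDeriv_comp_right (i := 4) _ h2 _ (nat_le_infty 4)]
  refine (ContinuousMultilinearMap.norm_compContinuousLinearMap_le _ _).trans ?_
  simp only [hn, Finset.prod_const_one, mul_one]
  rw [iteratedFDeriv_comp_add_left]
  simp

/-- TAY -/
theorem t_TAY : S_TAY := by
  intro u
  obtain ⟨C, hC0, hC⟩ : ∃ C : ℝ, 0 ≤ C ∧ ∀ y : E2, (1 + ‖y‖) ^ 4 * ‖iteratedFDeriv ℝ 4 u y‖ ≤ C :=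
    ⟨_, by positivity, fun y => SchwartzMap.one_add_le_sup_seminorm_apply (𝕜 := ℝ) (m := (4, 4))
      le_rfl le_rfl u y⟩
  refine ⟨2 * (16 * C), by positivity, ?_⟩
  intro h h0 h1 x i
  set p : ℝ → ℂ := fun s => u (x + s • ev i) with hp
  have hps : ContDiff ℝ ∞ p := u.smooth'.comp (contDiff_const.add (contDiff_id.smul contDiff_const))
  have hpm : ContDiff ℝ ∞ (fun s => p (-s)) := hps.comp contDiff_neg
  set f : ℝ → ℂ := fun s => p s + p (-s) with hf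
  have hfs : ContDiff ℝ ∞ f := hps.add hpm
  have hcd : ∀ (k : ℕ) (g : ℝ → ℂ), ContDiff ℝ ∞ g → ∀ t, ContDiffAt ℝ k g t := fun k g hg t =>
    (hg.of_le (by exact_mod_cast le_top)).contDiffAt
  have hfd : ∀ (k : ℕ) (t : ℝ), iteratedDeriv k f t =
      iteratedDeriv k p t + (-1 : ℝ) ^ k • iteratedDeriv k p (-t) := by
    intro k t
    have h2 : f = p + fun s => p (-s) := rfl
    rw [h2, iteratedDeriv_add (hcd k _ hps t) (hcd k _ hpm t), iteratedDeriv_comp_neg]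
  have hu : UniqueDiffOn ℝ (Icc (0 : ℝ) h) := uniqueDiffOn_Icc h0
  have hw : ∀ (k : ℕ) (t : ℝ), t ∈ Icc (0 : ℝ) h →
      iteratedDerivWithin k f (Icc 0 h) t = iteratedDeriv k f t := fun k t ht =>
    iteratedDerivWithin_eq_iteratedDeriv hu (hcd k f hfs t) ht
  have hx16 : ∀ t : ℝ, |t| ≤ 1 → ‖iteratedFDeriv ℝ 4 u (x + t • ev i)‖ ≤
      16 * C * ((1 + ‖x‖) ^ 4)⁻¹ := by
    intro t ht
    have h2 : ‖t • ev i‖ ≤ 1 := by
      rw [norm_smul]
      simpa [ev] using ht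
    have h3 : 1 + ‖x‖ ≤ 2 * (1 + ‖x + t • ev i‖) := by
      have h4 : ‖x‖ ≤ ‖x + t • ev i‖ + ‖t • ev i‖ := by
        have := norm_sub_le (x + t • ev i) (t • ev i)
        simpa using this
      nlinarith [norm_nonneg (x + t • ev i)]
    have h5 : (1 + ‖x‖) ^ 4 ≤ 16 * (1 + ‖x + t • ev i‖) ^ 4 := by
      calc (1 + ‖x‖) ^ 4 ≤ (2 * (1 + ‖x + t • ev i‖)) ^ 4 := by gcongr
        _ = _ := by ring
    have h6 : 0 < (1 + ‖x‖) ^ 4 := by positivity
    rw [← div_eq_mul_inv, le_div_iff₀ h6]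
    calc ‖iteratedFDeriv ℝ 4 u (x + t • ev i)‖ * (1 + ‖x‖) ^ 4
        ≤ ‖iteratedFDeriv ℝ 4 u (x + t • ev i)‖ * (16 * (1 + ‖x + t • ev i‖) ^ 4) := by gcongr
      _ = 16 * ((1 + ‖x + t • ev i‖) ^ 4 * ‖iteratedFDeriv ℝ 4 u (x + t • ev i)‖) := by ring
      _ ≤ 16 * C := by gcongr; exact hC _
  have hp4 : ∀ t : ℝ, |t| ≤ 1 → ‖iteratedDeriv 4 p t‖ ≤ 16 * C * ((1 + ‖x‖) ^ 4)⁻¹ := fun t ht =>
    (line_four u i x t).trans (hx16 t ht)
  have hb := taylor_mean_remainder_bound (n := 3) (f := f) (a := 0) (b := h) (x := h)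
    (C := 2 * (16 * C * ((1 + ‖x‖) ^ 4)⁻¹)) h0.le ((hfs.of_le (nat_le_infty 4)).contDiffOn)
    ⟨h0.le, le_rfl⟩ (by
      intro t ht
      have ht' : |t| ≤ 1 := abs_le.2 ⟨by linarith [ht.1], ht.2.trans h1⟩
      have ht2 : |-t| ≤ 1 := by rwa [abs_neg]
      rw [hw 4 t ht, hfd]
      refine (norm_add_le _ _).trans ?_
      have h7 : ‖(-1 : ℝ) ^ 4 • iteratedDeriv 4 p (-t)‖ = ‖iteratedDeriv 4 p (-t)‖ := by
        norm_num
      rw [h7]
      linarith [hp4 t ht', hp4 (-t) ht2])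
  have hT : taylorWithinEval f 3 (Icc 0 h) 0 h = 2 * u x + (h : ℂ) ^ 2 * d2 u i x := by
    have h00 : (0 : ℝ) ∈ Icc (0 : ℝ) h := ⟨le_rfl, h0.le⟩
    rw [taylorWithinEval_succ, taylorWithinEval_succ, taylorWithinEval_succ,
      taylor_within_zero_eval, hw _ 0 h00, hw _ 0 h00, hw _ 0 h00, hfd, hfd, hfd]
    have hd2 : d2 u i x = iteratedDeriv 2 p 0 := rfl
    have hf0 : f 0 = 2 * u x := by
      simp only [hf, hp]
      simp
      ring
    rw [hd2, hf0]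
    simp only [neg_zero]
    norm_num
    ring
  rw [hT] at hb
  have h8 : f h = u (x + h • ev i) + u (x - h • ev i) := by
    simp only [hf, hp]
    rw [neg_smul, ← sub_eq_add_neg]
  rw [h8] at hb
  have h9 : u (x + h • ev i) + u (x - h • ev i) - 2 * u x - (h : ℂ) ^ 2 * d2 u i x =
      u (x + h • ev i) + u (x - h • ev i) - (2 * u x + (h : ℂ) ^ 2 * d2 u i x) := by ring
  rw [h9]
  refine hb.trans ?_
  have h10 : (0 : ℝ) ≤ 2 * (16 * C * ((1 + ‖x‖) ^ 4)⁻¹) * h ^ 4 := by positivity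
  simp only [sub_zero]
  calc 2 * (16 * C * ((1 + ‖x‖) ^ 4)⁻¹) * h ^ (3 + 1) / ((3 ! : ℕ) : ℝ)
      ≤ 2 * (16 * C * ((1 + ‖x‖) ^ 4)⁻¹) * h ^ (3 + 1) := by
        refine div_le_self h10 ?_
        norm_num [Nat.factorial]
    _ = _ := by ring

end

end Pool.Agent.Run7.h885.ML
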