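import Pool.Agent.Run7.h630.ML.Iface

/-!
# The continuum limit of the massive lattice Green function: assembly (piece ASM)
-/

open MeasureTheory Filter Topology Set
open scoped SchwartzMap ContDiff FourierTransform

namespace Pool.Agent.Run7.h885.ML

open _root_.Run7.h630.ML

noncomputable section

/-! ### representatives of least absolute value -/

theorem vm_le {N : ℕ} [NeZero N] {a : ZMod N} {y : ℤ} (h : (y : ZMod N) = a) :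
    |a.valMinAbs| ≤ |y| := by
  have h1 := ZMod.natAbs_min_of_le_div_two N a.valMinAbs y (by rw [ZMod.coe_valMinAbs, h])
    (ZMod.natAbs_valMinAbs_le a)
  rw [Int.abs_eq_natAbs, Int.abs_eq_natAbs]
  exact_mod_cast h1

theorem vm_nb1 {N : ℕ} [NeZero N] (a : ZMod N) : |a.valMinAbs| ≤ |(a + 1).valMinAbs| + 1 := by
  have h1 : (((a + 1).valMinAbs - 1 : ℤ) : ZMod N) = a := by
    push_cast
    ring
  have h2 := vm_le h1
  have h3 := abs_sub (a + 1).valMinAbs 1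
  rw [abs_one] at h3
  exact h2.trans h3

theorem vm_nb2 {N : ℕ} [NeZero N] (a : ZMod N) : |a.valMinAbs| ≤ |(a - 1).valMinAbs| + 1 := by
  have h1 : (((a - 1).valMinAbs + 1 : ℤ) : ZMod N) = a := by
    push_cast
    ring
  have h2 := vm_le h1
  have h3 := abs_add_le (a - 1).valMinAbs 1
  rw [abs_one] at h3
  exact h2.trans h3

theorem vm_add {N : ℕ} [NeZero N] {a : ZMod N} (h : 2 * |a.valMinAbs| + 2 < N) :
    (a + 1).valMinAbs = a.valMinAbs + 1 := by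
  rw [ZMod.valMinAbs_spec]
  refine ⟨by push_cast; ring, ?_, ?_⟩
  · have := neg_abs_le a.valMinAbs
    linarith
  · have := le_abs_self a.valMinAbs
    linarith

theorem vm_sub {N : ℕ} [NeZero N] {a : ZMod N} (h : 2 * |a.valMinAbs| + 2 < N) :
    (a - 1).valMinAbs = a.valMinAbs - 1 := by
  rw [ZMod.valMinAbs_spec]
  refine ⟨by push_cast; ring, ?_, ?_⟩
  · have := neg_abs_le a.valMinAbs
    linarith
  · have := le_abs_self a.valMinAbs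
    linarith

/-- the representative of a point of the torus -/
def cx {N : ℕ} (u : ZMod N × ZMod N) : ℤ × ℤ := (u.1.valMinAbs, u.2.valMinAbs)

theorem cx_inj {N : ℕ} : Function.Injective (cx : ZMod N × ZMod N → ℤ × ℤ) := by
  intro u v h
  have h1 := congrArg Prod.fst h
  have h2 := congrArg Prod.snd h
  exact Prod.ext (ZMod.injective_valMinAbs h1) (ZMod.injective_valMinAbs h2)

theorem sum_cx_le {N : ℕ} [NeZero N] {p : ℤ × ℤ → ℝ} (h0 : ∀ x, 0 ≤ p x) (hs : Summable p) :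
    ∑ u : ZMod N × ZMod N, p (cx u) ≤ ∑' x, p x := by
  have h1 : ∑ u : ZMod N × ZMod N, p (cx u) =
      ∑ x ∈ Finset.univ.map ⟨(cx : ZMod N × ZMod N → ℤ × ℤ), cx_inj⟩, p x := by
    rw [Finset.sum_map]
    rfl
  rw [h1]
  exact hs.sum_le_tsum _ fun x _ => h0 x

theorem sum_cx_eq {N : ℕ} [NeZero N] {p : ℤ × ℤ → ℂ}
    (h : ∀ x, p x ≠ 0 → 2 * |x.1| < N ∧ 2 * |x.2| < N) :
    ∑ u : ZMod N × ZMod N, p (cx u) = ∑' x, p x := by
  have h1 : ∑ u : ZMod N × ZMod N, p (cx u) =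
      ∑ x ∈ Finset.univ.map ⟨(cx : ZMod N × ZMod N → ℤ × ℤ), cx_inj⟩, p x := by
    rw [Finset.sum_map]
    rfl
  rw [h1]
  symm
  refine tsum_eq_sum fun x hx => ?_
  by_contra hne
  obtain ⟨ha, hb⟩ := h x hne
  refine hx ?_
  rw [Finset.mem_map]
  have key : ∀ y : ℤ, 2 * |y| < N → ((y : ZMod N)).valMinAbs = y := by
    intro y hy
    rw [ZMod.valMinAbs_spec]
    refine ⟨rfl, ?_, ?_⟩
    · have := neg_abs_le y
      linarith
    · have := le_abs_self y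
      linarith
  refine ⟨((x.1 : ZMod N), (x.2 : ZMod N)), Finset.mem_univ _, ?_⟩
  change (((x.1 : ZMod N)).valMinAbs, ((x.2 : ZMod N)).valMinAbs) = x
  rw [key _ ha, key _ hb]

/-! ### points -/

theorem pt_apply0 (l : ℕ) (v : ℤ × ℤ) : pt l v 0 = (v.1 : ℝ) / l := rfl

theorem pt_apply1 (l : ℕ) (v : ℤ × ℤ) : pt l v 1 = (v.2 : ℝ) / l := rfl

theorem abs_le_norm0 (l : ℕ) (v : ℤ × ℤ) : |(v.1 : ℝ)| / l ≤ ‖pt l v‖ := by
  have h := EuclideanSpace.norm_eq (pt l v)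
  rw [h, Fin.sum_univ_two]
  refine Real.le_sqrt_of_sq_le ?_
  rw [pt_apply0, Real.norm_eq_abs, abs_div, Nat.abs_cast]
  nlinarith [sq_nonneg ‖pt l v 1‖]

theorem abs_le_norm1 (l : ℕ) (v : ℤ × ℤ) : |(v.2 : ℝ)| / l ≤ ‖pt l v‖ := by
  have h := EuclideanSpace.norm_eq (pt l v)
  rw [h, Fin.sum_univ_two]
  refine Real.le_sqrt_of_sq_le ?_
  rw [pt_apply1, Real.norm_eq_abs, Real.norm_eq_abs, abs_div, Nat.abs_cast]
  nlinarith [sq_nonneg |pt l v 0|]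

theorem norm_le_abs (l : ℕ) (v : ℤ × ℤ) : ‖pt l v‖ ≤ |(v.1 : ℝ)| / l + |(v.2 : ℝ)| / l := by
  rw [EuclideanSpace.norm_eq, Fin.sum_univ_two]
  refine Real.sqrt_le_iff.2 ⟨by positivity, ?_⟩
  rw [pt_apply0, pt_apply1, Real.norm_eq_abs, Real.norm_eq_abs, abs_div, abs_div, Nat.abs_cast]
  have h1 : 0 ≤ |(v.1 : ℝ)| / l := by positivity
  have h2 : 0 ≤ |(v.2 : ℝ)| / l := by positivity
  nlinarith

theorem nb_norm {l : ℕ} (hl : 1 ≤ l) {v v' : ℤ × ℤ} (h1 : |v.1| ≤ |v'.1| + 1)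
    (h2 : |v.2| ≤ |v'.2| + 1) : 1 + ‖pt l v‖ ≤ 3 * (1 + ‖pt l v'‖) := by
  have hl' : (1 : ℝ) ≤ l := by exact_mod_cast hl
  have hl0 : (0 : ℝ) < l := by linarith
  have h3 : (|(v.1 : ℝ)|) ≤ |(v'.1 : ℝ)| + 1 := by exact_mod_cast h1
  have h4 : (|(v.2 : ℝ)|) ≤ |(v'.2 : ℝ)| + 1 := by exact_mod_cast h2
  have h5 : |(v.1 : ℝ)| / l ≤ |(v'.1 : ℝ)| / l + 1 := by
    rw [div_add' _ _ _ hl0.ne', div_le_div_iff_of_pos_right hl0]
    linarith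
  have h6 : |(v.2 : ℝ)| / l ≤ |(v'.2 : ℝ)| / l + 1 := by
    rw [div_add' _ _ _ hl0.ne', div_le_div_iff_of_pos_right hl0]
    linarith
  have h7 := norm_le_abs l v
  have h8 := abs_le_norm0 l v'
  have h9 := abs_le_norm1 l v'
  have h10 := norm_nonneg (pt l v')
  linarith

theorem pt_add0 {l : ℕ} (a b : ℤ) : pt l (a + 1, b) = pt l (a, b) + ((l : ℝ)⁻¹) • ev 0 := by
  ext i
  fin_cases i
  · simp [pt, ev, add_div]
  · simp [pt, ev]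

theorem pt_sub0 {l : ℕ} (a b : ℤ) : pt l (a - 1, b) = pt l (a, b) - ((l : ℝ)⁻¹) • ev 0 := by
  ext i
  fin_cases i
  · simp [pt, ev, sub_div]
  · simp [pt, ev]

theorem pt_add1 {l : ℕ} (a b : ℤ) : pt l (a, b + 1) = pt l (a, b) + ((l : ℝ)⁻¹) • ev 1 := by
  ext i
  fin_cases i
  · simp [pt, ev]
  · simp [pt, ev, add_div]

theorem pt_sub1 {l : ℕ} (a b : ℤ) : pt l (a, b - 1) = pt l (a, b) - ((l : ℝ)⁻¹) • ev 1 := by
  ext i
  fin_cases i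
  · simp [pt, ev]
  · simp [pt, ev, sub_div]

/-! ### the mass -/

theorem mass_bounds {m : ℝ} (hm : 0 < m) {l : ℕ} (hl : 1 ≤ l) (hml : m ≤ l) :
    |2 - 2 * Real.cos (m / l) - (m / l) ^ 2| ≤ (m / l) ^ 4 ∧
      (m / l) ^ 2 / 2 ≤ 2 - 2 * Real.cos (m / l) ∧ 2 - 2 * Real.cos (m / l) ≤ 4 := by
  have hl' : (1 : ℝ) ≤ l := by exact_mod_cast hl
  have hl0 : (0 : ℝ) < l := by linarith
  have ht0 : 0 < m / l := by positivity
  have ht1 : m / l ≤ 1 := (div_le_one hl0).2 hml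
  have hb := Real.cos_bound (x := m / l) (by rw [abs_of_pos ht0]; exact ht1)
  rw [abs_of_pos ht0] at hb
  obtain ⟨hb1, hb2⟩ := abs_le.1 hb
  have h4 : (m / l) ^ 4 ≤ (m / l) ^ 2 := pow_le_pow_of_le_one ht0.le ht1 (by norm_num)
  have h5 : 0 ≤ (m / l) ^ 4 := by positivity
  refine ⟨abs_le.2 ⟨by linarith, by linarith⟩, by linarith, ?_⟩
  linarith [Real.neg_one_le_cos (m / l)]

/-! ### the error of the approximate solution -/

theorem Kt_norm {e : ℕ} {x0 : ℝ} (h0 : 0 ≤ x0) (h4 : x0 ≤ 4) {w : ZMod e × ZMod e → ℂ}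
    {u : ZMod e × ZMod e} {A B : ℝ} (hA : ‖w u‖ ≤ A) (h1 : ‖w (u + (1, 0))‖ ≤ B)
    (h2 : ‖w (u - (1, 0))‖ ≤ B) (h3 : ‖w (u + (0, 1))‖ ≤ B) (h5 : ‖w (u - (0, 1))‖ ≤ B) :
    ‖Kt x0 w u‖ ≤ 8 * A + 4 * B := by
  unfold Kt
  have b1 : ‖(4 : ℂ) + (x0 : ℂ)‖ ≤ 8 := by
    refine (norm_add_le _ _).trans ?_
    rw [Complex.norm_real, Real.norm_eq_abs, abs_of_nonneg h0]
    have : ‖(4 : ℂ)‖ = 4 := by norm_num
    rw [this]
    linarith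
  have b0 : ‖((4 : ℂ) + (x0 : ℂ)) * w u‖ ≤ 8 * A := by
    rw [norm_mul]
    gcongr
  have c1 := norm_sub_le (((4 : ℂ) + (x0 : ℂ)) * w u) (w (u + (1, 0)))
  have c2 := norm_sub_le (((4 : ℂ) + (x0 : ℂ)) * w u - w (u + (1, 0))) (w (u - (1, 0)))
  have c3 := norm_sub_le (((4 : ℂ) + (x0 : ℂ)) * w u - w (u + (1, 0)) - w (u - (1, 0)))
    (w (u + (0, 1)))
  have c4 := norm_sub_le (((4 : ℂ) + (x0 : ℂ)) * w u - w (u + (1, 0)) - w (u - (1, 0)) -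
    w (u + (0, 1))) (w (u - (0, 1)))
  linarith

theorem err_le {m : ℝ} (hm : 0 < m) {F : E2 → ℂ} (U : 𝓢(E2, ℂ))
    (hU : ∀ x, (m : ℂ) ^ 2 * U x - ∑ i, d2 U i x = F x) {D' : ℝ}
    (hF : ∀ y, (1 + ‖y‖) ^ 8 * ‖F y‖ ≤ D') (hT : S_TAY) :
    ∃ E : ℝ, 0 ≤ E ∧ ∀ (l e : ℕ) [NeZero e], 1 ≤ l → m ≤ l → 2 * l ^ 2 + 4 ≤ e →
      ∀ u : ZMod e × ZMod e,
        ‖rs l e F u - Kt (2 - 2 * Real.cos (m / l)) (fun v => (l : ℂ) ^ 2 * rs l e U v) u‖ ≤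
          E * ((l : ℝ) ^ 2)⁻¹ * ((1 + ‖pt l (cx u)‖) ^ 4)⁻¹ := by
  have hD1 : ∀ y : E2, (1 + ‖y‖) ^ 8 * ‖U y‖ ≤ 2 ^ 8 *
      (Finset.Iic ((8 : ℕ), (0 : ℕ))).sup (fun m => SchwartzMap.seminorm ℝ m.1 m.2) U := by
    intro y
    have := SchwartzMap.one_add_le_sup_seminorm_apply (𝕜 := ℝ) (m := (8, 0)) (k := 8) (n := 0)
      le_rfl le_rfl U y
    rwa [norm_iteratedFDeriv_zero] at this
  obtain ⟨D, hD0, hD⟩ : ∃ D : ℝ, 0 ≤ D ∧ ∀ y : E2, (1 + ‖y‖) ^ 8 * ‖U y‖ ≤ D :=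
    ⟨_, by positivity, hD1⟩
  obtain ⟨C, hC0, hC⟩ := hT U
  have hD'0 : 0 ≤ D' := le_trans (by positivity) (hF 0)
  refine ⟨m ^ 4 * D + 2 * C + (8 * D + 4 * (3 ^ 8 * D) + D'), by positivity, ?_⟩
  intro l e _ hl hml hle u
  have hl' : (1 : ℝ) ≤ l := by exact_mod_cast hl
  have hl0 : (0 : ℝ) < l := by linarith
  obtain ⟨hx1, hx2, hx3⟩ := mass_bounds hm hl hml
  set x0 : ℝ := 2 - 2 * Real.cos (m / l) with hx0
  have hx00 : 0 ≤ x0 := le_trans (by positivity) hx2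
  set X : E2 := pt l (cx u) with hX
  have hP : 1 ≤ 1 + ‖X‖ := by linarith [norm_nonneg X]
  have hP0 : 0 < 1 + ‖X‖ := by linarith
  have hUX : ‖U X‖ ≤ D * ((1 + ‖X‖) ^ 8)⁻¹ := by
    rw [← div_eq_mul_inv, le_div_iff₀ (by positivity), mul_comm]
    exact hD X
  have hFX : ‖F X‖ ≤ D' * ((1 + ‖X‖) ^ 8)⁻¹ := by
    rw [← div_eq_mul_inv, le_div_iff₀ (by positivity), mul_comm]
    exact hF X
  have h84 : ((1 + ‖X‖) ^ 8)⁻¹ ≤ ((1 + ‖X‖) ^ 4)⁻¹ :=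
    inv_anti₀ (by positivity) (pow_le_pow_right₀ hP (by norm_num))
  have hrX : ∀ G : E2 → ℂ, rs l e G u = G X := fun G => rfl
  by_cases hgood : 2 * |u.1.valMinAbs| + 2 < e ∧ 2 * |u.2.valMinAbs| + 2 < e
  · obtain ⟨hg1, hg2⟩ := hgood
    have e1 : rs l e U (u + (1, 0)) = U (X + ((l : ℝ)⁻¹) • ev 0) := by
      have : rs l e U (u + (1, 0)) = U (pt l ((u.1 + 1).valMinAbs, (u.2 + 0).valMinAbs)) := rfl
      rw [this, vm_add hg1, add_zero, pt_add0]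
      rfl
    have e2 : rs l e U (u - (1, 0)) = U (X - ((l : ℝ)⁻¹) • ev 0) := by
      have : rs l e U (u - (1, 0)) = U (pt l ((u.1 - 1).valMinAbs, (u.2 - 0).valMinAbs)) := rfl
      rw [this, vm_sub hg1, sub_zero, pt_sub0]
      rfl
    have e3 : rs l e U (u + (0, 1)) = U (X + ((l : ℝ)⁻¹) • ev 1) := by
      have : rs l e U (u + (0, 1)) = U (pt l ((u.1 + 0).valMinAbs, (u.2 + 1).valMinAbs)) := rfl
      rw [this, vm_add hg2, add_zero, pt_add1]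
      rfl
    have e4 : rs l e U (u - (0, 1)) = U (X - ((l : ℝ)⁻¹) • ev 1) := by
      have : rs l e U (u - (0, 1)) = U (pt l ((u.1 - 0).valMinAbs, (u.2 - 1).valMinAbs)) := rfl
      rw [this, vm_sub hg2, sub_zero, pt_sub1]
      rfl
    have hh0 : (0 : ℝ) < (l : ℝ)⁻¹ := by positivity
    have hh1 : (l : ℝ)⁻¹ ≤ 1 := inv_le_one_of_one_le₀ hl'
    have t0 := hC _ hh0 hh1 X 0
    have t1 := hC _ hh0 hh1 X 1
    set T0 : ℂ := U (X + (l : ℝ)⁻¹ • ev 0) + U (X - (l : ℝ)⁻¹ • ev 0) - 2 * U X -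
      (((l : ℝ)⁻¹ : ℝ) : ℂ) ^ 2 * d2 U 0 X with hT0
    set T1 : ℂ := U (X + (l : ℝ)⁻¹ • ev 1) + U (X - (l : ℝ)⁻¹ • ev 1) - 2 * U X -
      (((l : ℝ)⁻¹ : ℝ) : ℂ) ^ 2 * d2 U 1 X with hT1
    have hlc : (l : ℂ) ≠ 0 := by exact_mod_cast hl0.ne'
    have hmain : rs l e F u - Kt x0 (fun v => (l : ℂ) ^ 2 * rs l e U v) u =
        -(((l : ℝ) ^ 2 * (x0 - (m / l) ^ 2) : ℝ) : ℂ) * U X + (l : ℂ) ^ 2 * T0 +
          (l : ℂ) ^ 2 * T1 := by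
      unfold Kt
      simp only []
      rw [e1, e2, e3, e4, hrX, hrX, ← hU X, Fin.sum_univ_two, hT0, hT1]
      push_cast
      field_simp
      ring
    rw [hmain]
    have n1 : ‖-(((l : ℝ) ^ 2 * (x0 - (m / l) ^ 2) : ℝ) : ℂ) * U X‖ ≤
        m ^ 4 * D * ((l : ℝ) ^ 2)⁻¹ * ((1 + ‖X‖) ^ 4)⁻¹ := by
      rw [norm_mul, norm_neg, Complex.norm_real, Real.norm_eq_abs, abs_mul,
        abs_of_nonneg (by positivity : (0 : ℝ) ≤ (l : ℝ) ^ 2)]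
      calc (l : ℝ) ^ 2 * |x0 - (m / l) ^ 2| * ‖U X‖
          ≤ (l : ℝ) ^ 2 * (m / l) ^ 4 * (D * ((1 + ‖X‖) ^ 4)⁻¹) := by
            gcongr
            exact hUX.trans (by gcongr)
        _ = m ^ 4 * D * ((l : ℝ) ^ 2)⁻¹ * ((1 + ‖X‖) ^ 4)⁻¹ := by
            field_simp
    have n2 : ∀ T : ℂ, ‖T‖ ≤ C * ((l : ℝ)⁻¹) ^ 4 * ((1 + ‖X‖) ^ 4)⁻¹ →
        ‖(l : ℂ) ^ 2 * T‖ ≤ C * ((l : ℝ) ^ 2)⁻¹ * ((1 + ‖X‖) ^ 4)⁻¹ := by
      intro T hTT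
      rw [norm_mul, norm_pow, Complex.norm_natCast]
      calc (l : ℝ) ^ 2 * ‖T‖ ≤ (l : ℝ) ^ 2 * (C * ((l : ℝ)⁻¹) ^ 4 * ((1 + ‖X‖) ^ 4)⁻¹) := by gcongr
        _ = C * ((l : ℝ) ^ 2)⁻¹ * ((1 + ‖X‖) ^ 4)⁻¹ := by field_simp
    have n3 := n2 T0 t0
    have n4 := n2 T1 t1
    have n5 : 0 ≤ (8 * D + 4 * (3 ^ 8 * D) + D') * ((l : ℝ) ^ 2)⁻¹ * ((1 + ‖X‖) ^ 4)⁻¹ := by
      positivity
    calc _ ≤ m ^ 4 * D * ((l : ℝ) ^ 2)⁻¹ * ((1 + ‖X‖) ^ 4)⁻¹ +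
          C * ((l : ℝ) ^ 2)⁻¹ * ((1 + ‖X‖) ^ 4)⁻¹ + C * ((l : ℝ) ^ 2)⁻¹ * ((1 + ‖X‖) ^ 4)⁻¹ :=
          (norm_add₃_le).trans (by linarith)
      _ ≤ _ := by nlinarith [n5]
  · -- a site where a coordinate may jump
    have hfar : (l : ℝ) ≤ 1 + ‖X‖ := by
      have hle' : (2 * (l : ℤ) ^ 2 + 4 : ℤ) ≤ (e : ℤ) := by exact_mod_cast hle
      rw [not_and_or, not_lt, not_lt] at hgood
      have hsq : ∀ z : ℤ, (e : ℤ) ≤ 2 * |z| + 2 → (l : ℝ) ≤ |(z : ℝ)| / l := by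
        intro z hz
        rw [le_div_iff₀ hl0]
        have h1 : (l : ℤ) ^ 2 + 1 ≤ |z| := by linarith
        have h2 : (l : ℝ) ^ 2 + 1 ≤ |(z : ℝ)| := by exact_mod_cast h1
        nlinarith
      rcases hgood with h | h
      · have h1 := (hsq _ h).trans (abs_le_norm0 l (cx u))
        linarith
      · have h1 := (hsq _ h).trans (abs_le_norm1 l (cx u))
        linarith
    have hnb : ∀ v : ZMod e × ZMod e, |u.1.valMinAbs| ≤ |v.1.valMinAbs| + 1 →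
        |u.2.valMinAbs| ≤ |v.2.valMinAbs| + 1 →
        ‖rs l e U v‖ ≤ 3 ^ 8 * D * ((1 + ‖X‖) ^ 8)⁻¹ := by
      intro v h1 h2
      have h3 : 1 + ‖X‖ ≤ 3 * (1 + ‖pt l (cx v)‖) := nb_norm hl h1 h2
      have h4 : rs l e U v = U (pt l (cx v)) := rfl
      rw [h4, ← div_eq_mul_inv, le_div_iff₀ (by positivity)]
      calc ‖U (pt l (cx v))‖ * (1 + ‖X‖) ^ 8
          ≤ ‖U (pt l (cx v))‖ * (3 * (1 + ‖pt l (cx v)‖)) ^ 8 := by gcongr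
        _ = 3 ^ 8 * ((1 + ‖pt l (cx v)‖) ^ 8 * ‖U (pt l (cx v))‖) := by ring
        _ ≤ 3 ^ 8 * D := by gcongr; exact hD _
    have hself : |u.1.valMinAbs| ≤ |u.1.valMinAbs| + 1 := by linarith
    have hself2 : |u.2.valMinAbs| ≤ |u.2.valMinAbs| + 1 := by linarith
    have a1 := hnb (u + (1, 0)) (by
      change |u.1.valMinAbs| ≤ |(u.1 + 1).valMinAbs| + 1
      exact vm_nb1 u.1) (by
      change |u.2.valMinAbs| ≤ |(u.2 + 0).valMinAbs| + 1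
      rw [add_zero]; exact hself2)
    have a2 := hnb (u - (1, 0)) (by
      change |u.1.valMinAbs| ≤ |(u.1 - 1).valMinAbs| + 1
      exact vm_nb2 u.1) (by
      change |u.2.valMinAbs| ≤ |(u.2 - 0).valMinAbs| + 1
      rw [sub_zero]; exact hself2)
    have a3 := hnb (u + (0, 1)) (by
      change |u.1.valMinAbs| ≤ |(u.1 + 0).valMinAbs| + 1
      rw [add_zero]; exact hself) (by
      change |u.2.valMinAbs| ≤ |(u.2 + 1).valMinAbs| + 1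
      exact vm_nb1 u.2)
    have a4 := hnb (u - (0, 1)) (by
      change |u.1.valMinAbs| ≤ |(u.1 - 0).valMinAbs| + 1
      rw [sub_zero]; exact hself) (by
      change |u.2.valMinAbs| ≤ |(u.2 - 1).valMinAbs| + 1
      exact vm_nb2 u.2)
    have hq : ((1 + ‖X‖) ^ 8)⁻¹ ≤ ((l : ℝ) ^ 4)⁻¹ * ((1 + ‖X‖) ^ 4)⁻¹ := by
      rw [← mul_inv]
      refine inv_anti₀ (by positivity) ?_
      calc (l : ℝ) ^ 4 * (1 + ‖X‖) ^ 4 ≤ (1 + ‖X‖) ^ 4 * (1 + ‖X‖) ^ 4 := by gcongr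
        _ = (1 + ‖X‖) ^ 8 := by ring
    have hnl : ∀ z : ℂ, ‖(l : ℂ) ^ 2 * z‖ = (l : ℝ) ^ 2 * ‖z‖ := by
      intro z
      rw [norm_mul, norm_pow, Complex.norm_natCast]
    have hK : ‖rs l e F u - Kt x0 (fun v => (l : ℂ) ^ 2 * rs l e U v) u‖ ≤
        D' * ((1 + ‖X‖) ^ 8)⁻¹ + (l : ℝ) ^ 2 * ((8 * D + 4 * (3 ^ 8 * D)) *
          ((1 + ‖X‖) ^ 8)⁻¹) := by
      have b2 : ∀ v, ‖rs l e U v‖ ≤ 3 ^ 8 * D * ((1 + ‖X‖) ^ 8)⁻¹ →
          ‖(l : ℂ) ^ 2 * rs l e U v‖ ≤ (l : ℝ) ^ 2 * (3 ^ 8 * D * ((1 + ‖X‖) ^ 8)⁻¹) := by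
        intro v hv
        rw [hnl]
        gcongr
      have b0 : ‖(l : ℂ) ^ 2 * rs l e U u‖ ≤ (l : ℝ) ^ 2 * (D * ((1 + ‖X‖) ^ 8)⁻¹) := by
        rw [hnl, hrX]
        gcongr
      have hk := Kt_norm hx00 hx3 (w := fun v => (l : ℂ) ^ 2 * rs l e U v) b0 (b2 _ a1) (b2 _ a2)
        (b2 _ a3) (b2 _ a4)
      refine (norm_sub_le _ _).trans (add_le_add ?_ (hk.trans (le_of_eq (by ring))))
      rw [hrX]
      exact hFX
    have hl2 : (1 : ℝ) ≤ (l : ℝ) ^ 2 := one_le_pow₀ hl'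
    have hW : 0 ≤ ((1 + ‖X‖) ^ 8)⁻¹ := by positivity
    calc _ ≤ D' * ((1 + ‖X‖) ^ 8)⁻¹ + (l : ℝ) ^ 2 * ((8 * D + 4 * (3 ^ 8 * D)) *
          ((1 + ‖X‖) ^ 8)⁻¹) := hK
      _ ≤ (l : ℝ) ^ 2 * (D' * ((1 + ‖X‖) ^ 8)⁻¹) + (l : ℝ) ^ 2 * ((8 * D + 4 * (3 ^ 8 * D)) *
          ((1 + ‖X‖) ^ 8)⁻¹) := by
          have : 0 ≤ D' * ((1 + ‖X‖) ^ 8)⁻¹ := by positivity
          nlinarith
      _ = (8 * D + 4 * (3 ^ 8 * D) + D') * ((l : ℝ) ^ 2 * ((1 + ‖X‖) ^ 8)⁻¹) := by ring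
      _ ≤ (8 * D + 4 * (3 ^ 8 * D) + D') *
          ((l : ℝ) ^ 2 * (((l : ℝ) ^ 4)⁻¹ * ((1 + ‖X‖) ^ 4)⁻¹)) := by gcongr
      _ = (8 * D + 4 * (3 ^ 8 * D) + D') * ((l : ℝ) ^ 2)⁻¹ * ((1 + ‖X‖) ^ 4)⁻¹ := by
          field_simp
      _ ≤ _ := by
          have h9 : 0 ≤ (m ^ 4 * D + 2 * C) * (((l : ℝ) ^ 2)⁻¹ * ((1 + ‖X‖) ^ 4)⁻¹) := by
            positivity
          linarith [h9]

/-! ### the continuum limit -/

theorem t_ASM : S_ASM := by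
  intro hSOL hT hRIE hSUM hSTA m hm F hFs hFc e _ he g hg
  obtain ⟨U, hU, hPar⟩ := hSOL m hm F hFs hFc
  obtain ⟨D', hD'⟩ : ∃ D' : ℝ, ∀ y, (1 + ‖y‖) ^ 8 * ‖F y‖ ≤ D' := by
    have hc : Continuous fun y : E2 => (1 + ‖y‖) ^ 8 * ‖F y‖ :=
      ((continuous_const.add continuous_norm).pow 8).mul hFs.continuous.norm
    have hs : HasCompactSupport fun y : E2 => (1 + ‖y‖) ^ 8 * ‖F y‖ := hFc.norm.mul_left
    obtain ⟨C, hC⟩ := hc.bounded_above_of_compact_support hs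
    exact ⟨C, fun y => (le_abs_self _).trans (hC y)⟩
  have hD'0 : 0 ≤ D' := le_trans (by positivity) (hD' 0)
  obtain ⟨E, hE0, hE⟩ := err_le hm U hU hD' hT
  obtain ⟨S, hS0, hS⟩ := hSUM
  obtain ⟨R, hR0, hR⟩ := hFc.exists_pos_le_norm
  -- the sum of the decay over the torus
  have hsum : ∀ l : ℕ, 1 ≤ l → ∑ u : ZMod (e l) × ZMod (e l), ((1 + ‖pt l (cx u)‖) ^ 4)⁻¹ ≤
      S * (l : ℝ) ^ 2 := by
    intro l hl
    exact (sum_cx_le (fun x => by positivity) (hS l hl).1).trans (hS l hl).2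
  -- the difference
  have hB : ∀ᶠ l : ℕ in atTop, ‖((l : ℝ) ^ 4)⁻¹ * (∑ u : ZMod (e l) × ZMod (e l),
      starRingEnd ℂ (rs l (e l) F u) * (g l u - (l : ℂ) ^ 2 * rs l (e l) U u)).re‖ ≤
      2 * D' * E * S / m ^ 2 * ((l : ℝ) ^ 2)⁻¹ := by
    filter_upwards [hg, eventually_ge_atTop 1, eventually_ge_atTop ⌈m⌉₊] with l hgl hl hml
    have hl' : (1 : ℝ) ≤ l := by exact_mod_cast hl
    have hl0 : (0 : ℝ) < l := by linarith
    have hml' : m ≤ l := (Nat.le_ceil m).trans (by exact_mod_cast hml)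
    obtain ⟨-, hx2, hx3⟩ := mass_bounds hm hl hml'
    set x0 : ℝ := 2 - 2 * Real.cos (m / l) with hx0
    have hx00 : 0 < x0 := lt_of_lt_of_le (by positivity) hx2
    have hKd : ∀ u, Kt x0 (fun v => g l v - (l : ℂ) ^ 2 * rs l (e l) U v) u =
        rs l (e l) F u - Kt x0 (fun v => (l : ℂ) ^ 2 * rs l (e l) U v) u := by
      intro u
      rw [← hgl]
      unfold Kt
      ring
    have h1 := hSTA (e l) x0 hx00 (rs l (e l) F) (fun v => g l v - (l : ℂ) ^ 2 * rs l (e l) U v)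
    have h2 : Real.sqrt (∑ u : ZMod (e l) × ZMod (e l), ‖rs l (e l) F u‖ ^ 2) ≤
        D' * Real.sqrt (S * (l : ℝ) ^ 2) := by
      rw [← Real.sqrt_sq hD'0, ← Real.sqrt_mul (by positivity)]
      refine Real.sqrt_le_sqrt ?_
      refine le_trans ?_ (mul_le_mul_of_nonneg_left (hsum l hl) (sq_nonneg D'))
      rw [Finset.mul_sum]
      refine Finset.sum_le_sum fun u _ => ?_
      have h3 := hD' (pt l (cx u))
      have hP : 1 ≤ 1 + ‖pt l (cx u)‖ := by linarith [norm_nonneg (pt l (cx u))]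
      have h4 : ‖rs l (e l) F u‖ ≤ D' * ((1 + ‖pt l (cx u)‖) ^ 8)⁻¹ := by
        rw [← div_eq_mul_inv, le_div_iff₀ (by positivity), mul_comm]
        exact h3
      calc ‖rs l (e l) F u‖ ^ 2 ≤ (D' * ((1 + ‖pt l (cx u)‖) ^ 8)⁻¹) ^ 2 := by gcongr
        _ = D' ^ 2 * ((1 + ‖pt l (cx u)‖) ^ 16)⁻¹ := by
          rw [mul_pow, ← inv_pow, ← inv_pow, ← pow_mul]
        _ ≤ D' ^ 2 * ((1 + ‖pt l (cx u)‖) ^ 4)⁻¹ := by
          gcongr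
          norm_num
    have h3 : Real.sqrt (∑ u : ZMod (e l) × ZMod (e l),
        ‖Kt x0 (fun v => g l v - (l : ℂ) ^ 2 * rs l (e l) U v) u‖ ^ 2) ≤
        E * ((l : ℝ) ^ 2)⁻¹ * Real.sqrt (S * (l : ℝ) ^ 2) := by
      have h30 : 0 ≤ E * ((l : ℝ) ^ 2)⁻¹ := by positivity
      rw [← Real.sqrt_sq h30, ← Real.sqrt_mul (by positivity)]
      refine Real.sqrt_le_sqrt ?_
      refine le_trans ?_ (mul_le_mul_of_nonneg_left (hsum l hl) (sq_nonneg _))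
      rw [Finset.mul_sum]
      refine Finset.sum_le_sum fun u _ => ?_
      rw [hKd u]
      have hP : 1 ≤ 1 + ‖pt l (cx u)‖ := by linarith [norm_nonneg (pt l (cx u))]
      calc _ ≤ (E * ((l : ℝ) ^ 2)⁻¹ * ((1 + ‖pt l (cx u)‖) ^ 4)⁻¹) ^ 2 := by
            gcongr
            exact hE l (e l) hl hml' (he l) u
        _ = (E * ((l : ℝ) ^ 2)⁻¹) ^ 2 * ((1 + ‖pt l (cx u)‖) ^ 8)⁻¹ := by
          rw [mul_pow, ← inv_pow, ← inv_pow, ← inv_pow, ← pow_mul]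
        _ ≤ (E * ((l : ℝ) ^ 2)⁻¹) ^ 2 * ((1 + ‖pt l (cx u)‖) ^ 4)⁻¹ := by
          gcongr
          norm_num
    have h4 : x0⁻¹ ≤ 2 * (l : ℝ) ^ 2 / m ^ 2 := by
      rw [inv_le_comm₀ hx00 (by positivity), inv_div]
      refine le_trans (le_of_eq ?_) hx2
      field_simp
    have hsq : Real.sqrt (S * (l : ℝ) ^ 2) * Real.sqrt (S * (l : ℝ) ^ 2) = S * (l : ℝ) ^ 2 :=
      Real.mul_self_sqrt (by positivity)
    have h5 : ‖∑ u : ZMod (e l) × ZMod (e l), starRingEnd ℂ (rs l (e l) F u) *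
        (g l u - (l : ℂ) ^ 2 * rs l (e l) U u)‖ ≤ 2 * D' * E * S / m ^ 2 * (l : ℝ) ^ 2 := by
      calc _ ≤ x0⁻¹ * Real.sqrt (∑ u, ‖rs l (e l) F u‖ ^ 2) * Real.sqrt (∑ u,
            ‖Kt x0 (fun v => g l v - (l : ℂ) ^ 2 * rs l (e l) U v) u‖ ^ 2) := h1
        _ ≤ (2 * (l : ℝ) ^ 2 / m ^ 2) * (D' * Real.sqrt (S * (l : ℝ) ^ 2)) *
            (E * ((l : ℝ) ^ 2)⁻¹ * Real.sqrt (S * (l : ℝ) ^ 2)) := by gcongr
        _ = (2 * (l : ℝ) ^ 2 / m ^ 2) * D' * (E * ((l : ℝ) ^ 2)⁻¹) *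
            (Real.sqrt (S * (l : ℝ) ^ 2) * Real.sqrt (S * (l : ℝ) ^ 2)) := by ring
        _ = (2 * (l : ℝ) ^ 2 / m ^ 2) * D' * (E * ((l : ℝ) ^ 2)⁻¹) * (S * (l : ℝ) ^ 2) := by
            rw [hsq]
        _ = _ := by field_simp
    rw [norm_mul, Real.norm_eq_abs, Real.norm_eq_abs, abs_of_nonneg (by positivity :
      (0 : ℝ) ≤ ((l : ℝ) ^ 4)⁻¹)]
    calc ((l : ℝ) ^ 4)⁻¹ * |(∑ u : ZMod (e l) × ZMod (e l), starRingEnd ℂ (rs l (e l) F u) *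
          (g l u - (l : ℂ) ^ 2 * rs l (e l) U u)).re|
        ≤ ((l : ℝ) ^ 4)⁻¹ * (2 * D' * E * S / m ^ 2 * (l : ℝ) ^ 2) := by
          gcongr
          exact (Complex.abs_re_le_norm _).trans h5
      _ = _ := by field_simp
  have hBlim : Tendsto (fun l : ℕ => ((l : ℝ) ^ 4)⁻¹ * (∑ u : ZMod (e l) × ZMod (e l),
      starRingEnd ℂ (rs l (e l) F u) * (g l u - (l : ℂ) ^ 2 * rs l (e l) U u)).re) atTop
      (𝓝 0) := by
    refine squeeze_zero_norm' hB ?_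
    have h1 : Tendsto (fun l : ℕ => ((l : ℝ) ^ 2)⁻¹) atTop (𝓝 0) :=
      tendsto_inv_atTop_zero.comp ((tendsto_pow_atTop (by norm_num)).comp
        tendsto_natCast_atTop_atTop)
    simpa using h1.const_mul (2 * D' * E * S / m ^ 2)
  -- the Riemann sums
  have hcs : HasCompactSupport fun y : E2 => starRingEnd ℂ (F y) * U y := by
    have h1 : HasCompactSupport fun y : E2 => starRingEnd ℂ (F y) :=
      hFc.comp_left (map_zero _)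
    exact h1.mul_right
  have hcc : Continuous fun y : E2 => starRingEnd ℂ (F y) * U y :=
    (Complex.continuous_conj.comp hFs.continuous).mul U.continuous
  have hA := hRIE _ hcc hcs
  rw [hPar] at hA
  have hAre := (Complex.continuous_re.tendsto _).comp hA
  rw [Complex.ofReal_re] at hAre
  have hAeq : ∀ᶠ l : ℕ in atTop, (Complex.re ∘ fun l : ℕ => ((l : ℂ) ^ 2)⁻¹ *
      ∑' x : ℤ × ℤ, starRingEnd ℂ (F (pt l x)) * U (pt l x)) l =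
      ((l : ℝ) ^ 4)⁻¹ * (∑ u : ZMod (e l) × ZMod (e l), starRingEnd ℂ (rs l (e l) F u) *
        ((l : ℂ) ^ 2 * rs l (e l) U u)).re := by
    filter_upwards [eventually_ge_atTop 1, eventually_ge_atTop ⌈R⌉₊] with l hl hRl
    have hl' : (1 : ℝ) ≤ l := by exact_mod_cast hl
    have hl0 : (0 : ℝ) < l := by linarith
    have hRl' : R ≤ l := (Nat.le_ceil R).trans (by exact_mod_cast hRl)
    have hlc : (l : ℂ) ≠ 0 := by exact_mod_cast hl0.ne'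
    have h1 : ∑ u : ZMod (e l) × ZMod (e l), starRingEnd ℂ (F (pt l (cx u))) * U (pt l (cx u)) =
        ∑' x : ℤ × ℤ, starRingEnd ℂ (F (pt l x)) * U (pt l x) := by
      refine sum_cx_eq (p := fun x : ℤ × ℤ => starRingEnd ℂ (F (pt l x)) * U (pt l x)) ?_
      intro x hx
      have hFx : F (pt l x) ≠ 0 := by
        intro h0
        apply hx
        rw [h0, map_zero, zero_mul]
      have hn : ‖pt l x‖ < R := by
        by_contra hcon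
        exact hFx (hR _ (not_lt.1 hcon))
      have hlim : ∀ z : ℤ, |(z : ℝ)| / l ≤ ‖pt l x‖ → 2 * |z| < (e l : ℤ) := by
        intro z hz
        have h2 : |(z : ℝ)| < l * l := by
          have := (div_lt_iff₀ hl0).1 (hz.trans_lt hn)
          nlinarith
        have h3 : |z| < (l : ℤ) * l := by exact_mod_cast h2
        have h4 : (2 * (l : ℤ) ^ 2 + 4 : ℤ) ≤ (e l : ℤ) := by exact_mod_cast he l
        nlinarith
      exact ⟨hlim _ (abs_le_norm0 l x), hlim _ (abs_le_norm1 l x)⟩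
    have h2 : ∑ u : ZMod (e l) × ZMod (e l), starRingEnd ℂ (rs l (e l) F u) *
        ((l : ℂ) ^ 2 * rs l (e l) U u) = (((l : ℝ) ^ 2 : ℝ) : ℂ) *
        ∑ u : ZMod (e l) × ZMod (e l), starRingEnd ℂ (F (pt l (cx u))) * U (pt l (cx u)) := by
      rw [Finset.mul_sum]
      refine Finset.sum_congr rfl fun u _ => ?_
      have h3 : ∀ G : E2 → ℂ, rs l (e l) G u = G (pt l (cx u)) := fun G => rfl
      rw [h3, h3]
      push_cast
      ring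
    simp only [Function.comp]
    rw [h2, h1, Complex.re_ofReal_mul]
    have h3 : ((l : ℂ) ^ 2)⁻¹ = ((((l : ℝ) ^ 2)⁻¹ : ℝ) : ℂ) := by push_cast; rfl
    rw [h3, Complex.re_ofReal_mul, ← mul_assoc]
    congr 1
    field_simp
  have hAlim := hAre.congr' hAeq
  have hfin := hAlim.add hBlim
  rw [add_zero] at hfin
  refine hfin.congr fun l => ?_
  rw [← mul_add, ← Complex.add_re, ← Finset.sum_add_distrib]
  congr 3
  funext u
  ring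

end

end Pool.Agent.Run7.h885.ML
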